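import Pool.Agent.Lib.MP_edb5be_nt.PD.Iface

/-!
Project PD, module STEP: one step of the scales.
-/

set_option autoImplicit false

namespace Pool.Agent.Lib.MP_edb5be_nt.PD.H65

open Finset Pool.Agent.Lib.MP_edb5be_nt.EX

theorem wt_nonneg (u : List ℕ) : 0 ≤ wt u := by unfold wt; positivity

theorem su_mono (U : Finset (List ℕ)) (f g : ℤ → ℝ) (y : ℤ) (h : ∀ x, f x ≤ g x) :
    su U f y ≤ su U g y := by
  unfold su
  exact Finset.sum_le_sum fun u _ => mul_le_mul_of_nonneg_left (h _) (wt_nonneg u)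

theorem su_sub (U : Finset (List ℕ)) (f g : ℤ → ℝ) (y : ℤ) :
    su U (fun x => f x - g x) y = su U f y - su U g y := by
  unfold su
  rw [← Finset.sum_sub_distrib]
  exact Finset.sum_congr rfl fun u _ => by ring

theorem wds_len (A : ℕ) : ∀ (h : ℕ) (u : List ℕ), u ∈ wds A h → u.length = h
  | 0, u, hu => by
      have : u = [] := by simpa [wds] using hu
      simp [this]
  | h + 1, u, hu => by
      simp only [wds, Finset.mem_biUnion, Finset.mem_image] at hu
      obtain ⟨a, -, v, hv, rfl⟩ := hu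
      simp [wds_len A h v hv]

theorem Uw_len {h : ℕ} {u : List ℕ} (hu : u ∈ Uw h) : u.length = h :=
  wds_len _ _ _ (Finset.mem_filter.1 hu).1

theorem Rw_len {h : ℕ} {u : List ℕ} (hu : u ∈ Rw h) : u.length = h :=
  wds_len _ _ _ (Finset.mem_filter.1 hu).1

theorem Fd_per (hM : MeanStatement) (J : ℕ) (x : ℤ) : Fd J (x + 3 ^ J) = Fd J x := by
  have := (hM J 0 (Uw J) (fun _ => 1) (fun u hu => Uw_len hu) (fun _ => rfl)).1 x
  simpa [Fd] using this

theorem per_mul (f : ℤ → ℝ) (q : ℤ) (h : ∀ x, f (x + q) = f x) (m : ℕ) (x : ℤ) :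
    f (x + q * m) = f x := by
  induction m with
  | zero => simp
  | succ k ih =>
    have : x + q * ((k + 1 : ℕ) : ℤ) = (x + q * k) + q := by push_cast; ring
    rw [this, h, ih]

theorem step (hM : MeanStatement) (hC : CompStatement) (hD : DensStatement) (hX : MixStatement)
    (hS : SplitStatement) : StepStatement := by
  obtain ⟨K, θ, hK, hθ0, hθ1, hS⟩ := hS
  obtain ⟨C, hC0, hX⟩ := hX 3
  refine ⟨max C K, θ, lt_max_of_lt_right hK, hθ0, hθ1, ?_⟩
  intro Γ n J j J' W y hΓ hW hJ hJj hn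
  obtain ⟨g, hg0, hgp, hgm, hgs⟩ := hS j J'
  rw [hC n j W (Rw j) (Fd J') y hW.len (fun v hv => Rw_len hv)]
  set h : ℤ → ℝ := fun x => |Fd (j + J') x - Fd J x| + g x with hh
  have h0 : ∀ x, 0 ≤ h x := fun x => add_nonneg (abs_nonneg _) (hg0 x)
  have hp : ∀ x, h (x + 3 ^ (j + J')) = h x := by
    intro x
    have h1 : Fd J (x + 3 ^ (j + J')) = Fd J x := by
      obtain ⟨d, hd⟩ : ∃ d, j + J' = J + d := ⟨j + J' - J, by omega⟩
      have := per_mul (Fd J) (3 ^ J) (Fd_per hM J) (3 ^ d) x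
      rw [hd, pow_add]
      simpa using this
    simp only [hh]
    rw [Fd_per hM, hgp, h1]
  have hd := hD Γ n (j + J') W h y hΓ hW hn h0 hp
  have hsum : (∑ x ∈ range (3 ^ (j + J')), h x) / 3 ^ (j + J') ≤
      C / J ^ 3 + K * (j * θ ^ j + J' * θ ^ J') := by
    have e : (∑ x ∈ range (3 ^ (j + J')), h x) =
        (∑ x ∈ range (3 ^ (j + J')), |Fd (j + J') x - Fd J x|) +
          ∑ x ∈ range (3 ^ (j + J')), g x := by
      rw [← Finset.sum_add_distrib]
    rw [e, add_div]
    refine add_le_add ?_ hgm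
    rw [div_le_iff₀ (by positivity)]
    exact hX J (j + J') hJ hJj
  have hle : ∀ x, Fd J x - h x ≤ su (Rw j) (Fd J') x := by
    intro x
    have h1 := hgs x
    have h2 := neg_abs_le (Fd (j + J') x - Fd J x)
    simp only [hh]
    linarith
  have h3 := su_mono W _ _ y hle
  rw [su_sub] at h3
  refine le_trans ?_ h3
  have h4 : su W h y ≤ max C K * (Γ + 1) * (n + 1) * (1 / J ^ 3 + j * θ ^ j + J' * θ ^ J') := by
    refine hd.trans ?_
    have h5 : (∑ x ∈ range (3 ^ (j + J')), h x) / 3 ^ (j + J') ≤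
        max C K * (1 / J ^ 3 + j * θ ^ j + J' * θ ^ J') := by
      refine hsum.trans ?_
      have a1 : C / (J : ℝ) ^ 3 ≤ max C K * (1 / (J : ℝ) ^ 3) := by
        rw [mul_one_div]
        gcongr
        exact le_max_left _ _
      have a2 : K * (j * θ ^ j + J' * θ ^ J') ≤ max C K * (j * θ ^ j + J' * θ ^ J') := by
        gcongr
        exact le_max_right _ _
      calc _ ≤ max C K * (1 / (J : ℝ) ^ 3) + max C K * (j * θ ^ j + J' * θ ^ J') :=
            add_le_add a1 a2
        _ = _ := by ring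
    calc _ ≤ (Γ + 1) * (n + 1) * (max C K * (1 / J ^ 3 + j * θ ^ j + J' * θ ^ J')) := by
          gcongr
      _ = _ := by ring
  linarith

end Pool.Agent.Lib.MP_edb5be_nt.PD.H65
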