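import Pool.Agent.Lib.MP_edb5be_nt.PD.Iface2

/-!
Project PD, module WINDOW: the integer part of `m log_2 3`, many lengths.
-/

set_option autoImplicit false

namespace Pool.Agent.Lib.MP_edb5be_nt.PD.H65

open Finset

theorem lb_le (m : ℕ) : 2 ^ lb m ≤ 3 ^ m := Nat.pow_log_le_self 2 (by positivity)

theorem lt_lb (m : ℕ) : 3 ^ m < 2 ^ (lb m + 1) := Nat.lt_pow_succ_log_self one_lt_two _

theorem pow_hi : (3 : ℕ) ^ 200 ≤ 2 ^ 317 := by
  have h : (3 : ℕ) ^ 200 ≤ 2 ^ 200 * 2 ^ 117 := by norm_num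
  rw [← pow_add] at h
  exact h

theorem pow_lo : (2 : ℕ) ^ 198 ≤ 3 ^ 125 := by norm_num

theorem lb_hi (m : ℕ) : 1000 * lb m ≤ 1585 * m := by
  have h1 : (2 : ℕ) ^ (1000 * lb m) ≤ 2 ^ (1585 * m) := by
    calc (2 : ℕ) ^ (1000 * lb m) = (2 ^ lb m) ^ 1000 := by rw [← pow_mul, mul_comm]
      _ ≤ (3 ^ m) ^ 1000 := Nat.pow_le_pow_left (lb_le m) _
      _ = (3 ^ 200) ^ (5 * m) := by rw [← pow_mul, ← pow_mul]; congr 1; ring
      _ ≤ (2 ^ 317) ^ (5 * m) := Nat.pow_le_pow_left pow_hi _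
      _ = 2 ^ (1585 * m) := by rw [← pow_mul]; congr 1; ring
  exact (Nat.pow_le_pow_iff_right one_lt_two).1 h1

theorem lb_lo (m : ℕ) : 1584 * m ≤ 1000 * lb m + 1000 := by
  have h1 : (2 : ℕ) ^ (1584 * m) ≤ 2 ^ (1000 * lb m + 1000) := by
    calc (2 : ℕ) ^ (1584 * m) = (2 ^ 198) ^ (8 * m) := by rw [← pow_mul]; congr 1; ring
      _ ≤ (3 ^ 125) ^ (8 * m) := Nat.pow_le_pow_left pow_lo _
      _ = (3 ^ m) ^ 1000 := by rw [← pow_mul, ← pow_mul]; congr 1; ring
      _ ≤ (2 ^ (lb m + 1)) ^ 1000 := Nat.pow_le_pow_left (lt_lb m).le _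
      _ = 2 ^ (1000 * lb m + 1000) := by rw [← pow_mul]; congr 1; ring
  exact (Nat.pow_le_pow_iff_right one_lt_two).1 h1

theorem lb_succ (m : ℕ) : lb m + 1 ≤ lb (m + 1) ∧ lb (m + 1) ≤ lb m + 2 := by
  constructor
  · have h1 : (2 : ℕ) ^ (lb m + 1) ≤ 3 ^ (m + 1) := by
      rw [pow_succ, pow_succ]
      have := lb_le m
      omega
    exact (Nat.le_log_iff_pow_le one_lt_two (by positivity)).2 h1
  · have h1 : (2 : ℕ) ^ lb (m + 1) < 2 ^ (lb m + 3) := by
      have h2 := lb_le (m + 1)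
      have h3 := lt_lb m
      have h4 : (2 : ℕ) ^ (lb m + 3) = 4 * 2 ^ (lb m + 1) := by ring
      have h5 : (3 : ℕ) ^ (m + 1) = 3 * 3 ^ m := by ring
      omega
    have := (Nat.pow_lt_pow_iff_right one_lt_two).1 h1
    omega

theorem ivt (g : ℕ → ℤ) (b : ℕ) (v : ℤ) (hs : ∀ m, g m - 1 ≤ g (m + 1)) (h0 : v ≤ g 0)
    (hb : g b ≤ v) : ∃ m ≤ b, g m = v := by
  classical
  have hex : ∃ m, g m ≤ v := ⟨b, hb⟩
  refine ⟨Nat.find hex, Nat.find_min' hex hb, ?_⟩
  have h1 := Nat.find_spec hex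
  refine le_antisymm h1 ?_
  rcases Nat.eq_zero_or_pos (Nat.find hex) with h | h
  · rw [h]; exact h0
  · obtain ⟨k, hk⟩ : ∃ k, Nat.find hex = k + 1 := ⟨Nat.find hex - 1, by omega⟩
    have h2 := Nat.find_min hex (m := k) (by omega)
    rw [hk]
    have := hs k
    omega

theorem window : WindowStatement := by
  refine ⟨fun m => ⟨lb_le m, lt_lb m, lb_lo m, lb_hi m⟩, ?_⟩
  intro L hL
  constructor
  · set g : ℕ → ℤ := fun m => (L : ℤ) + lb m - 2 * m with hg
    set s := Nat.sqrt L with hs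
    have hss : s * s ≤ L := Nat.sqrt_le L
    have hsL : 10 * s ≤ L := by
      by_contra h
      have : L < 10 * s := by omega
      nlinarith
    have hstep : ∀ m, g m - 1 ≤ g (m + 1) := by
      intro m
      have := (lb_succ m).1
      simp only [hg]
      push_cast
      omega
    have hsub : Finset.Icc (-(s : ℤ)) s ⊆ (IL L).image g := by
      intro v hv
      obtain ⟨hv1, hv2⟩ := Finset.mem_Icc.1 hv
      have hb : g (3 * L - 1) ≤ v := by
        have h1 := lb_hi (3 * L - 1)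
        simp only [hg]
        omega
      have h0 : v ≤ g 0 := by
        simp only [hg]
        omega
      obtain ⟨m, hm, hmv⟩ := ivt g (3 * L - 1) v hstep h0 hb
      refine Finset.mem_image.2 ⟨m, ?_, hmv⟩
      rw [IL, Finset.mem_filter, Finset.mem_range]
      refine ⟨by omega, ?_⟩
      have : ((L : ℤ) + lb m - 2 * m) = v := hmv
      rw [this]
      have h2 : v ^ 2 ≤ (s : ℤ) * s := by nlinarith
      have h3 : (s : ℤ) * s ≤ L := by exact_mod_cast hss
      linarith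
    have hcard : 2 * s + 1 ≤ (IL L).card := by
      have h1 := (Finset.card_le_card hsub).trans Finset.card_image_le
      rw [Int.card_Icc] at h1
      have : ((s : ℤ) + 1 - -(s : ℤ)).toNat = 2 * s + 1 := by omega
      omega
    have hsq : √(L : ℝ) ≤ s + 1 := by
      rw [Real.sqrt_le_left (by positivity)]
      have := Nat.lt_succ_sqrt L
      have h1 : L ≤ (s + 1) * (s + 1) := this.le
      have h2 : (L : ℝ) ≤ ((s : ℝ) + 1) * (s + 1) := by exact_mod_cast h1
      nlinarith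
    have : ((2 * s + 1 : ℕ) : ℝ) ≤ (IL L).card := by exact_mod_cast hcard
    push_cast at this
    have h0 : (0 : ℝ) ≤ s := Nat.cast_nonneg _
    linarith
  · intro m hm
    rw [IL, Finset.mem_filter, Finset.mem_range] at hm
    obtain ⟨h1, h2⟩ := hm
    refine ⟨?_, h1.le⟩
    have h3 := lb_lo m
    have h4 : 10 * ((L : ℤ) + lb m - 2 * m) ≤ L := by
      by_contra h
      push Not at h
      have hL' : (100 : ℤ) ≤ L := by exact_mod_cast hL
      nlinarith
    omega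

end Pool.Agent.Lib.MP_edb5be_nt.PD.H65
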