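import Pool.Agent.Lib.MP_edb5be_nt.PD.Iface2
import Pool.Agent.Lib.MP_edb5be_nt.EX.H74.PhiW

/-!
Project PD, module OSC: the oscillation of the last digit.
-/

set_option autoImplicit false

namespace Pool.Agent.Lib.MP_edb5be_nt.PD.H65

open Finset Pool.Agent.Lib.MP_edb5be_nt.EX

theorem mem_wds' (A : ℕ) : ∀ (h : ℕ) (u : List ℕ),
    u ∈ wds A h ↔ u.length = h ∧ ∀ a ∈ u, 1 ≤ a ∧ a ≤ A
  | 0, u => by
      rw [List.length_eq_zero_iff]
      constructor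
      · intro hu
        have : u = [] := by simpa [wds] using hu
        subst this
        simp
      · rintro ⟨rfl, -⟩
        simp [wds]
  | h + 1, u => by
      simp only [wds, Finset.mem_biUnion, Finset.mem_image, Finset.mem_Icc]
      constructor
      · rintro ⟨a, ha, v, hv, rfl⟩
        obtain ⟨h1, h2⟩ := (mem_wds' A h v).1 hv
        refine ⟨by simp [h1], ?_⟩
        intro b hb
        rcases List.mem_cons.1 hb with rfl | hb
        · exact ha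
        · exact h2 b hb
      · rintro ⟨h1, h2⟩
        rcases u with _ | ⟨a, v⟩
        · simp at h1
        · refine ⟨a, h2 a (by simp), v, (mem_wds' A h v).2 ⟨by simpa using h1, ?_⟩, rfl⟩
          intro b hb
          exact h2 b (by simp [hb])

theorem gw_eq (k s : ℕ) (z : ℤ) :
    Gw k s z = 3 ^ k * Pool.Agent.Lib.MP_0a5adf_nt.TP.f k s (z : ZMod (3 ^ k)) := by
  classical
  have hmem : ∀ u : List ℕ, u ∈ (Bw k s).filter (Ad z) ↔ (u.length = k ∧ (∀ a ∈ u, 1 ≤ a)) ∧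
      (3 : ℤ) ^ k ∣ 2 ^ u.sum * z - cc u ∧ u.sum = s := by
    intro u
    rw [mem_filter, Bw, mem_filter, mem_wds']
    constructor
    · rintro ⟨⟨⟨h1, h2⟩, h3⟩, h4⟩
      refine ⟨⟨h1, fun a ha => (h2 a ha).1⟩, ?_, h3⟩
      rw [← h1]
      exact h4
    · rintro ⟨⟨h1, h2⟩, h3, h4⟩
      refine ⟨⟨⟨h1, fun a ha => ⟨h2 a ha, ?_⟩⟩, h4⟩, ?_⟩
      · rw [← h4]
        exact List.single_le_sum (by simp) a ha
      · rw [← h1] at h3
        exact h3
  have hc := H74.card_eq k s z _ hmem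
  have hs : ∀ u ∈ (Bw k s).filter (Ad z), wt u * (1 : ℝ) = 3 ^ k / 2 ^ s := by
    intro u hu
    obtain ⟨⟨h1, -⟩, -, h3⟩ := (hmem u).1 hu
    rw [wt, h1, h3, mul_one]
  rw [Gw, su, Finset.sum_congr rfl hs, Finset.sum_const, nsmul_eq_mul, hc,
    Pool.Agent.Lib.MP_0a5adf_nt.TP.f]
  ring

theorem sum_zmod' (m : ℕ) (g : ZMod (3 ^ m) → ℝ) :
    ∑ x ∈ range (3 ^ m), g (((x : ℕ) : ℤ) : ZMod (3 ^ m)) = ∑ X : ZMod (3 ^ m), g X := by
  refine Finset.sum_nbij' (i := fun x : ℕ => (((x : ℕ) : ℤ) : ZMod (3 ^ m)))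
    (j := fun X => ZMod.val X) ?_ ?_ ?_ ?_ ?_
  · intro x _; exact mem_univ _
  · intro X _
    exact mem_range.2 (ZMod.val_lt X)
  · intro x hx
    rw [Int.cast_natCast, ZMod.val_natCast, Nat.mod_eq_of_lt (mem_range.1 hx)]
  · intro X _
    rw [Int.cast_natCast, ZMod.natCast_zmod_val]
  · intro x _; rfl

theorem osc (hJ : Pool.Agent.Lib.MP_0a5adf_nt.TP.JoscStatement) : OscStatement := by
  intro A
  obtain ⟨C, hC, h⟩ := hJ A
  refine ⟨C, hC, ?_⟩
  intro k b hk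
  have h1 : ∀ s ∈ range (b + 1), ∑ z ∈ range (3 ^ k), |Gw k s z -
      (Gw k s z + Gw k s (z + 3 ^ (k - 1)) + Gw k s (z + 2 * 3 ^ (k - 1))) / 3| =
      3 ^ k * Pool.Agent.Lib.MP_0a5adf_nt.TP.oscf k
        (Pool.Agent.Lib.MP_0a5adf_nt.TP.f k s) := by
    intro s _
    rw [Pool.Agent.Lib.MP_0a5adf_nt.TP.oscf, ← sum_zmod' k, mul_sum]
    refine sum_congr rfl fun z _ => ?_
    rw [gw_eq, gw_eq, gw_eq]
    have e : ∀ y : ℝ, (3 : ℝ) ^ k * |y| = |3 ^ k * y| := fun y => by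
      rw [abs_mul, abs_of_pos (by positivity : (0 : ℝ) < 3 ^ k)]
    rw [e]
    congr 1
    push_cast
    ring
  rw [sum_congr rfl h1, ← mul_sum]
  have h2 := h k (b + 1) hk
  rw [Pool.Agent.Lib.MP_0a5adf_nt.TP.Josc] at h2
  calc _ ≤ (3 : ℝ) ^ k * (C / (k : ℝ) ^ A) := mul_le_mul_of_nonneg_left h2 (by positivity)
    _ = _ := by ring

end Pool.Agent.Lib.MP_edb5be_nt.PD.H65
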